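import Pool.Agent.W_c2305b_h73.Stmt
import Pool.Agent.W82_c2305b.AF10

/-!
An absolute threshold for the inscribed-hexagon covering bound, for all centrally symmetric convex
domains of bounded eccentricity.
-/

open Metric

/-- For each `α` there is one `N` such that the hexagon bound holds, for all noncrossing coverings
of convex domains by at least `N` congruent copies of `K`, for every centrally symmetric convex
domain `K` which contains a disc of some radius `r` and lies in a disc of radius `α r`. -/
theorem Pool.Agent.Results.MP_c2305b_co.BoundedEccentricity.result (α : ℝ) :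
    ∃ N : ℕ, ∀ K : Set C2305b.Pl, C2305b.ConvexDomain K →
      (∃ z : C2305b.Pl, ∀ x ∈ K, (2 : ℝ) • z - x ∈ K) →
      (∃ (a b : C2305b.Pl) (r : ℝ), 0 < r ∧ closedBall a r ⊆ K ∧ K ⊆ closedBall b (α * r)) →
      C2305b.HexBound K N := by
  obtain ⟨N, hN⟩ := C2305bFat.top_of_near α (C2305bAF.near α)
  exact ⟨N, fun K hK hz hE => hN K ⟨hK, hz⟩ hE⟩
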