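import Pool.Agent.W_c2305b_h73.Regular2

/-!
An absolute threshold for the inscribed-hexagon covering bound, for all centrally symmetric convex
domains outside an arbitrarily small affine neighbourhood of a compact nowhere dense set of
exceptional domains, which contains no `C^1` domain and no domain with only one maximal hexagon.
-/

open MeasureTheory Set TopologicalSpace Metric

/-- There is a Hausdorff compact set `X` of convex domains with centre `0` such that
(1) each centrally symmetric convex domain of the class `Regular` (`C^1` domains, domains with only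
one maximal hexagon, and all domains with `t(5) + t(7) < 2 t(6)` whose maximal hexagons are all
centrally symmetric) is, for some `ε > 0`, not affinely `ε`-close to any member of `X`;
(2) domains with this property are found arbitrarily close to each centrally symmetric convex
domain;
(3) for each `ε > 0` there is one `N` such that each centrally symmetric convex domain is affinely
`ε`-close to a member of `X`, or satisfies the hexagon bound with threshold `N`. -/
theorem Pool.Agent.Results.MP_c2305b_co.Generic.result :
    ∃ X : Set (NonemptyCompacts C2305b.Pl), IsCompact X ∧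
      (∀ E ∈ X, C2305b.ConvexDomain (E : Set C2305b.Pl) ∧ ∀ x ∈ E, -x ∈ E) ∧
      (∀ K : Set C2305b.Pl, C2305b.SymDomain K → C2305b.Regular K →
        ∃ ε > (0 : ℝ), ∀ E ∈ X, ¬ C2305b.Close ε (E : Set C2305b.Pl) K) ∧
      (∀ K : Set C2305b.Pl, C2305b.SymDomain K → ∀ ε > (0 : ℝ), ∃ K1 : Set C2305b.Pl,
        C2305b.SymDomain K1 ∧ K ⊆ K1 ∧ K1 ⊆ cthickening ε K ∧
          ∃ ε' > (0 : ℝ), ∀ E ∈ X, ¬ C2305b.Close ε' (E : Set C2305b.Pl) K1) ∧
      (∀ ε > (0 : ℝ), ∃ N : ℕ, ∀ K : Set C2305b.Pl, C2305b.SymDomain K →
        (∃ E ∈ X, C2305b.Close ε (E : Set C2305b.Pl) K) ∨ C2305b.HexBound K N) := by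
  refine ⟨C2305b.EE, C2305b.isCompact_EE,
    fun E hE => ⟨(C2305b.symDomain_EE hE).1, fun x hx => hE.1.2.1 x hx⟩,
    fun K hK hR => C2305b.exists_not_close hK hR, fun K hK ε hε => ?_,
    fun ε hε => C2305b.uniform hε⟩
  exact ⟨cthickening ε K, hK.cthickening hε, self_subset_cthickening K, subset_rfl,
    C2305b.exists_not_close (hK.cthickening hε)
      (Or.inr (Or.inl (C2305b.smooth_cthickening hK.1.2.1 hε)))⟩
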