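import Pool.Agent.W_c2305b_h73.Stmt
import Pool.Agent.W_c2305b_h73.Assemble
import Pool.Agent.W_c2305b_h19.PartB

/-!
An absolute threshold for the inscribed-hexagon covering bound, for all convex domains which are
close to an ellipse of any eccentricity.
-/

open MeasureTheory Set
open scoped Pointwise

/-- There are absolute constants `ε > 0` and `N` such that the hexagon bound holds, for all
noncrossing coverings of convex domains by at least `N` congruent copies of `K`, for every convex
domain `K` (symmetric or not) which some invertible affine map takes to a set between the unit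
disc and its `(1 + ε)`-fold copy; for instance, for all ellipses. -/
theorem Pool.Agent.Results.MP_c2305b_co.NearEllipse.result :
    ∃ ε : ℝ, 0 < ε ∧ ∃ N : ℕ, ∀ K : Set C2305b.Pl, C2305b.ConvexDomain K →
      C2305b.NearEllipse ε K → C2305b.HexBound K N := by
  have hint : (interior (Metric.closedBall (0 : C2305b.Pl) 1)).Nonempty :=
    ⟨0, Metric.ball_subset_interior_closedBall (Metric.mem_ball_self one_pos)⟩
  obtain ⟨ε, hε, N, h⟩ := C2305b.top (isCompact_closedBall _ _) hint
    (C2305b.core_disc fun _ _ _ _ h1 h2 h3 h4 => C2305bB.partB h1 h2 h3 h4)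
  refine ⟨ε, hε, N, fun K hK hE => ?_⟩
  obtain ⟨A, v, h1, h2⟩ := hE
  refine h K hK.1 hK.2.1 ⟨A, v, h1, ?_⟩
  have h3 : (1 + ε) • Metric.closedBall (0 : C2305b.Pl) 1 = Metric.closedBall 0 (1 + ε) := by
    rw [smul_closedBall _ _ zero_le_one, smul_zero, Real.norm_eq_abs,
      abs_of_pos (by linarith), mul_one]
  rw [h3]; exact h2
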